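import Pool.Agent.Helper30.DN.Stm

/-!
# DN, module STEIN: Steinberg data modulo `t` and hyperlinear groups
-/

set_option autoImplicit false

namespace Pool.Agent.Helper18.DN

open Pool.Agent.W661.RC (HasT)
open Pool.Agent.H21R2 (IsHyperlinear)
open Pool.Agent.Helper3.CK (S_CLOS)
open Pool.Agent.Helper30.DN

/-- property (T) passes to quotients -/
theorem hasT_surj {G H : Type} [Group G] [Group H] (f : G →* H) (hf : Function.Surjective f)
    (hG : HasT G) : HasT H := by
  classical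
  intro W _ _ _ π hπ
  obtain ⟨v, hv, hv2⟩ := hG W (π.comp f) (fun K ε hε => by
    obtain ⟨v, hv, hv2⟩ := hπ (K.image f) ε hε
    exact ⟨v, hv, fun g hg => hv2 (f g) (Finset.mem_image_of_mem f hg)⟩)
  refine ⟨v, hv, fun h => ?_⟩
  obtain ⟨g, rfl⟩ := hf h
  exact hv2 g

theorem hasT_conj {G : Type} [Group G] (K : Subgroup G) (s : G) (hK : HasT K) :
    HasT (K.map (MulAut.conj s).toMonoidHom) :=
  hasT_surj ((MulAut.conj s).toMonoidHom.subgroupMap K)
    ((MulAut.conj s).toMonoidHom.subgroupMap_surjective K) hK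

section

variable {B Γ : Type} [Ring B] [Group Γ] {E : Fin 4 → Fin 4 → B → Γ} {t : B}

theorem E_zero (h : Ste B Γ E t) {i j : Fin 4} (hij : i ≠ j) : E i j 0 = 1 := by
  have := h.tri i j hij 0
  rwa [mul_zero] at this

theorem E_neg (h : Ste B Γ E t) {i j : Fin 4} (hij : i ≠ j) (c : B) : E i j (-c) = (E i j c)⁻¹ := by
  rw [eq_inv_iff_mul_eq_one, ← h.add i j hij, neg_add_cancel, E_zero h hij]

theorem E_addt (h : Ste B Γ E t) {i j : Fin 4} (hij : i ≠ j) (c d : B) :
    E i j (c + t * d) = E i j c := by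
  rw [h.add i j hij, h.tri i j hij, mul_one]

theorem colA (h : Ste B Γ E t) {i j k : Fin 4} (hij : i ≠ j) (hjk : j ≠ k) (hik : i ≠ k)
    (p r1 r2 : B) :
    E i j p * (E i k r1 * E j k r2) * (E i j p)⁻¹ = E i k (r1 + p * r2) * E j k r2 := by
  rw [mul_inv_eq_iff_eq_mul, h.add i k hik]
  have h1 := h.rel i j k hij hjk hik p r2
  have h2 := h.com i j i k hij hik hij.symm hik p r1
  have h3 := h.com i j i k hij hik hij.symm hik p (p * r2)
  have h4 := h.com i k j k hik hjk hjk.symm hik (p * r2) r2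
  calc E i j p * (E i k r1 * E j k r2) = (E i j p * E i k r1) * E j k r2 := by group
    _ = E i k r1 * (E i j p * E j k r2) := by rw [h2]; group
    _ = E i k r1 * (E j k r2 * (E i k (p * r2) * E i j p)) := by rw [h1, h3]
    _ = E i k r1 * ((E j k r2 * E i k (p * r2)) * E i j p) := by group
    _ = _ := by rw [← h4]; group

theorem colB (h : Ste B Γ E t) {i j k : Fin 4} (hij : i ≠ j) (hjk : j ≠ k) (hik : i ≠ k)
    (p r1 r2 : B) :
    E j i p * (E i k r1 * E j k r2) * (E j i p)⁻¹ = E i k r1 * E j k (r2 + p * r1) := by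
  rw [h.com i k j k hik hjk hjk.symm hik r1 r2, colA h hij.symm hik hjk,
    h.com j k i k hjk hik hik.symm hjk]

theorem rowA (h : Ste B Γ E t) {i j k : Fin 4} (hij : i ≠ j) (hki : k ≠ i) (hkj : k ≠ j)
    (p r1 r2 : B) :
    E i j p * (E k i r1 * E k j r2) * (E i j p)⁻¹ = E k i r1 * E k j (r2 - r1 * p) := by
  rw [mul_inv_eq_iff_eq_mul]
  have h1 := h.rel k i j hki hij hkj r1 p
  have h2 := h.com i j k j hij hkj hkj.symm hij p r2
  have h3 : E k j r2 = E k j (r2 - r1 * p) * E k j (r1 * p) := by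
    rw [← h.add k j hkj, sub_add_cancel]
  have h4 := h.com k i k j hki hkj hki.symm hkj r1 (r1 * p)
  have h5 := h.com i j k j hij hkj hkj.symm hij p (r2 - r1 * p)
  have h6 := h.com i j k j hij hkj hkj.symm hij p (r1 * p)
  have h7 := h.com k j k i hkj hki hkj.symm hki (r2 - r1 * p) r1
  have h8 := h.com k j k i hkj hki hkj.symm hki (r1 * p) r1
  calc E i j p * (E k i r1 * E k j r2)
      = E i j p * (E k i r1 * E k j (r1 * p) * E k j (r2 - r1 * p)) := by
        rw [h3, ← h.add k j hkj, add_comm, h.add k j hkj, mul_assoc]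
    _ = (E i j p * (E k i r1 * E k j (r1 * p))) * E k j (r2 - r1 * p) := by group
    _ = (E k i r1 * E i j p) * E k j (r2 - r1 * p) := by rw [← h1]
    _ = E k i r1 * (E i j p * E k j (r2 - r1 * p)) := by group
    _ = _ := by rw [h5]; group

theorem rowB (h : Ste B Γ E t) {i j k : Fin 4} (hij : i ≠ j) (hki : k ≠ i) (hkj : k ≠ j)
    (p r1 r2 : B) :
    E j i p * (E k i r1 * E k j r2) * (E j i p)⁻¹ = E k i (r1 - r2 * p) * E k j r2 := by
  rw [h.com k i k j hki hkj hki.symm hkj r1 r2, rowA h hij.symm hkj hki,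
    h.com k j k i hkj hki hkj.symm hki]

/-- the conjugating element -/
def sg (E : Fin 4 → Fin 4 → B → Γ) (x y : B) : Γ :=
  E 0 1 x * (E 1 0 (-y) * (E 0 1 x * (E 0 1 (-1) * (E 1 0 1 * E 0 1 (-1)))))

theorem conj_mul6 (a b c d e f g : Γ) : (a * (b * (c * (d * (e * f))))) * g *
    (a * (b * (c * (d * (e * f)))))⁻¹ =
    a * (b * (c * (d * (e * (f * g * f⁻¹) * e⁻¹) * d⁻¹) * c⁻¹) * b⁻¹) * a⁻¹ := by
  group

variable {x y u : B}

theorem sg_col (h : Ste B Γ E t) (tc : ∀ z : B, t * z = z * t) (hyx : y * x = 1 + t * u)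
    {c : Fin 4} (h0 : c ≠ 0) (h1 : c ≠ 1) (r : B) :
    sg E x y * E 0 c r * (sg E x y)⁻¹ = E 0 c (x * r) := by
  have e0 : E 0 c r = E 0 c r * E 1 c 0 := by rw [E_zero h h1.symm, mul_one]
  have h01 : (0 : Fin 4) ≠ 1 := by decide
  rw [sg, conj_mul6]
  rw [e0, colA h h01 h1.symm h0.symm, colB h h01 h1.symm h0.symm, colA h h01 h1.symm h0.symm,
    colA h h01 h1.symm h0.symm, colB h h01 h1.symm h0.symm, colA h h01 h1.symm h0.symm]
  have e1 : (r + -1 * 0 + -1 * (0 + 1 * (r + -1 * 0)) + x * (0 + 1 * (r + -1 * 0))) = x * r := by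
    noncomm_ring
  have e2 : (0 + 1 * (r + -1 * 0) + -y * (x * r)) = 0 + t * (-(u * r)) := by
    have h2 : -y * (x * r) = -(r + t * u * r) := by rw [neg_mul, ← mul_assoc, hyx]; noncomm_ring
    rw [h2]; noncomm_ring
  rw [e1, e2, E_addt h h1.symm, E_zero h h1.symm, mul_one]
  have e3 : x * r + x * (0 + t * (-(u * r))) = x * r + t * (-(x * (u * r))) := by
    rw [zero_add, ← mul_assoc x t, ← tc x]; noncomm_ring
  rw [e3, E_addt h h0.symm]

theorem sg_row (h : Ste B Γ E t) (tc : ∀ z : B, t * z = z * t) (hyx : y * x = 1 + t * u)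
    {c : Fin 4} (h0 : c ≠ 0) (h1 : c ≠ 1) (r : B) :
    sg E x y * E c 0 r * (sg E x y)⁻¹ = E c 0 (r * y) := by
  have e0 : E c 0 r = E c 0 r * E c 1 0 := by rw [E_zero h h1, mul_one]
  have h01 : (0 : Fin 4) ≠ 1 := by decide
  rw [sg, conj_mul6]
  rw [e0, rowA h h01 h0 h1, rowB h h01 h0 h1, rowA h h01 h0 h1, rowA h h01 h0 h1,
    rowB h h01 h0 h1, rowA h h01 h0 h1]
  have e1 : r - (0 - r * -1) * 1 = 0 := by noncomm_ring
  rw [e1]
  have e2 : 0 - r * -1 - 0 * -1 - 0 * x = r := by noncomm_ring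
  rw [e2]
  have e3 : 0 - r * -y = r * y := by noncomm_ring
  rw [e3]
  have e4 : r - r * y * x = 0 + t * (-(r * u)) := by
    rw [mul_assoc, hyx, mul_add, mul_one, ← mul_assoc r t u, ← tc r]; noncomm_ring
  rw [e4, E_addt h h1, E_zero h h1, mul_one]

theorem sg_com (h : Ste B Γ E t) {i j : Fin 4} (hij : i ≠ j) (hi0 : i ≠ 0) (hi1 : i ≠ 1)
    (hj0 : j ≠ 0) (hj1 : j ≠ 1) (r : B) :
    sg E x y * E i j r * (sg E x y)⁻¹ = E i j r := by
  have h01 : (0 : Fin 4) ≠ 1 := by decide
  have hA : ∀ p, E 0 1 p * E i j r * (E 0 1 p)⁻¹ = E i j r := fun p => by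
    rw [h.com 0 1 i j h01 hij hi1.symm hj0.symm, mul_inv_cancel_right]
  have hB : ∀ p, E 1 0 p * E i j r * (E 1 0 p)⁻¹ = E i j r := fun p => by
    rw [h.com 1 0 i j h01.symm hij hi0.symm hj1.symm, mul_inv_cancel_right]
  rw [sg, conj_mul6, hA, hB, hA, hA, hB, hA]

/-- the generators of the conjugate subgroup -/
theorem sg_gen (h : Ste B Γ E t) (tc : ∀ z : B, t * z = z * t) (hyx : y * x = 1 + t * u)
    (Q : Γ → Prop) (q1 : ∀ c : Fin 4, c ≠ 0 → c ≠ 1 → ∀ r, Q (E 0 c (x * r)))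
    (q2 : ∀ c : Fin 4, c ≠ 0 → c ≠ 1 → ∀ r, Q (E c 0 (r * y)))
    (q3 : ∀ i j : Fin 4, i ≠ j → i ≠ 0 → i ≠ 1 → j ≠ 0 → j ≠ 1 → ∀ r, Q (E i j r))
    (i j : Fin 4) (c : B) (hij : i ≠ j) (hi : i ≠ 1) (hj : j ≠ 1) :
    Q (sg E x y * E i j c * (sg E x y)⁻¹) := by
  rcases eq_or_ne i 0 with rfl | hi0
  · rw [sg_col h tc hyx hij.symm hj]
    exact q1 j hij.symm hj c
  · rcases eq_or_ne j 0 with rfl | hj0
    · rw [sg_row h tc hyx hij hi]
      exact q2 i hij hi c
    · rw [sg_com h hij hi0 hi hj0 hj]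
      exact q3 i j hij hi0 hi hj0 hj c

/-- triviality of the root subgroups spreads -/
theorem spread (h : Ste B Γ E t) {P : Type} [Group P] (φ : Γ →* P)
    (h0 : ∀ r, φ (E 2 1 r) = 1) : ∀ i j, i ≠ j → ∀ r, φ (E i j r) = 1 := by
  have hr : ∀ i j k : Fin 4, i ≠ j → j ≠ k → i ≠ k → (∀ r, φ (E i j r) = 1) →
      ∀ r, φ (E i k r) = 1 := by
    intro i j k hij hjk hik hg r
    have h1 := congrArg φ (h.rel i j k hij hjk hik r 1)
    rw [map_mul, map_mul, map_mul, hg, one_mul, one_mul, mul_one] at h1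
    exact mul_eq_left.1 h1.symm
  have hl : ∀ i j k : Fin 4, i ≠ j → j ≠ k → i ≠ k → (∀ r, φ (E j k r) = 1) →
      ∀ r, φ (E i k r) = 1 := by
    intro i j k hij hjk hik hg r
    have h1 := congrArg φ (h.rel i j k hij hjk hik r 1)
    rw [map_mul, map_mul, map_mul, hg, one_mul, mul_one, mul_one] at h1
    exact mul_eq_left.1 h1.symm
  have h20 := hr 2 1 0 (by decide) (by decide) (by decide) h0
  have h23 := hr 2 1 3 (by decide) (by decide) (by decide) h0
  have h10 := hl 1 2 0 (by decide) (by decide) (by decide) h20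
  have h30 := hl 3 2 0 (by decide) (by decide) (by decide) h20
  have h01 := hl 0 2 1 (by decide) (by decide) (by decide) h0
  have h31 := hl 3 2 1 (by decide) (by decide) (by decide) h0
  have h03 := hl 0 2 3 (by decide) (by decide) (by decide) h23
  have h13 := hl 1 2 3 (by decide) (by decide) (by decide) h23
  have h02 := hr 0 1 2 (by decide) (by decide) (by decide) h01
  have h12 := hr 1 0 2 (by decide) (by decide) (by decide) h10
  have h32 := hr 3 0 2 (by decide) (by decide) (by decide) h30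
  intro i j hij
  fin_cases i <;> fin_cases j
  · exact absurd rfl hij
  · exact h01
  · exact h02
  · exact h03
  · exact h10
  · exact absurd rfl hij
  · exact h12
  · exact h13
  · exact h20
  · exact h0
  · exact absurd rfl hij
  · exact h23
  · exact h30
  · exact h31
  · exact h32
  · exact absurd rfl hij

end

theorem s_stein : S_STEIN := by
  intro hclos B Γ _ _ E x y a b u v t h tc hyx hbea hT hTK P _ hP φ
  set K := Subgroup.closure {g | ∃ i j c, i ≠ j ∧ i ≠ 1 ∧ j ≠ 1 ∧ g = E i j c} with hK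
  set s := sg E x y with hs
  have hEK : ∀ (i j : Fin 4) (c : B), i ≠ j → i ≠ 1 → j ≠ 1 → E i j c ∈ K := fun i j c h1 h2 h3 =>
    Subgroup.subset_closure ⟨i, j, c, h1, h2, h3, rfl⟩
  set K1 := K.map (MulAut.conj s).toMonoidHom with hK1
  have hmem : ∀ k ∈ K, s * k * s⁻¹ ∈ K1 := fun k hk => ⟨k, hk, by simp⟩
  have hmem' : ∀ z ∈ K1, ∃ k ∈ K, s * k * s⁻¹ = z := by
    rintro z ⟨k, hk, rfl⟩
    exact ⟨k, hk, by simp⟩
  -- properties of the generators
  have hgen : ∀ S : Subgroup Γ, (∀ c : Fin 4, c ≠ 0 → c ≠ 1 → ∀ r, E 0 c (x * r) ∈ S) →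
      (∀ c : Fin 4, c ≠ 0 → c ≠ 1 → ∀ r, E c 0 (r * y) ∈ S) →
      (∀ i j : Fin 4, i ≠ j → i ≠ 0 → i ≠ 1 → j ≠ 0 → j ≠ 1 → ∀ r, E i j r ∈ S) → K1 ≤ S := by
    intro S q1 q2 q3
    rw [hK1, Subgroup.map_le_iff_le_comap, hK, Subgroup.closure_le]
    rintro g ⟨i, j, c, hij, hi, hj, rfl⟩
    have := sg_gen h tc hyx (fun g => g ∈ S) q1 q2 q3 i j c hij hi hj
    simpa [hs] using this
  have h10 : (1 : Fin 4) ≠ 0 := by decide
  have hK1K : K1 ≤ K := by
    refine hgen K (fun c h0 h1 r => hEK _ _ _ h0.symm h10.symm h1)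
      (fun c h0 h1 r => hEK _ _ _ h0 h1 h10.symm) fun i j hij _ hi1 _ hj1 r => hEK _ _ _ hij hi1 hj1
  set e := 1 - x * y with he
  have hye : y * e = t * (-(u * y)) := by
    rw [he, mul_sub, mul_one, ← mul_assoc, hyx]; noncomm_ring
  have hex : e * x = t * (-(x * u)) := by
    rw [he, sub_mul, one_mul, mul_assoc, hyx, mul_add, mul_one, ← mul_assoc x t, ← tc x]
    noncomm_ring
  have hw1 : ∀ r, K1 ≤ Subgroup.centralizer {E 0 1 (e * r)} := by
    intro r
    refine hgen _ ?_ ?_ ?_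
    · intro c h0 h1 r'
      rw [Subgroup.mem_centralizer_singleton_iff]
      exact h.com 0 c 0 1 h0.symm h10.symm h0 h10.symm _ _
    · intro c h0 h1 r'
      rw [Subgroup.mem_centralizer_singleton_iff]
      have h2 := h.rel c 0 1 h0 h10.symm h1 (r' * y) (e * r)
      have h3 : r' * y * (e * r) = t * (-(r' * (u * y * r))) := by
        rw [mul_assoc, ← mul_assoc y, hye, mul_assoc t, ← mul_assoc r' t, ← tc r']
        noncomm_ring
      rw [h3, h.tri c 1 h1, mul_one] at h2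
      exact h2
    · intro i j hij hi0 hi1 hj0 hj1 r'
      rw [Subgroup.mem_centralizer_singleton_iff]
      exact h.com i j 0 1 hij h10.symm hj0 hi1 _ _
  have hw2 : ∀ r, K1 ≤ Subgroup.centralizer {E 1 0 (r * e)} := by
    intro r
    refine hgen _ ?_ ?_ ?_
    · intro c h0 h1 r'
      rw [Subgroup.mem_centralizer_singleton_iff]
      have h2 := h.rel 1 0 c h10 h0.symm h1.symm (r * e) (x * r')
      have h3 : r * e * (x * r') = t * (-(r * (x * u * r'))) := by
        rw [mul_assoc, ← mul_assoc e, hex, mul_assoc t, ← mul_assoc r t, ← tc r]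
        noncomm_ring
      rw [h3, h.tri 1 c h1.symm, mul_one] at h2
      exact h2.symm
    · intro c h0 h1 r'
      rw [Subgroup.mem_centralizer_singleton_iff]
      exact (h.com 1 0 c 0 h10 h0 h0.symm h10 _ _).symm
    · intro i j hij hi0 hi1 hj0 hj1 r'
      rw [Subgroup.mem_centralizer_singleton_iff]
      exact h.com i j 1 0 hij h10 hj1 hi0 _ _
  -- the elements which shrink `K1` generate everything
  have htop : Subgroup.closure {q : Γ | ∀ k ∈ K1, q⁻¹ * k * q ∈ K1} = ⊤ := by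
    set M := Subgroup.closure {q : Γ | ∀ k ∈ K1, q⁻¹ * k * q ∈ K1} with hM
    have m1 : ∀ q ∈ K1, q ∈ M := fun q hq => Subgroup.subset_closure fun k hk =>
      K1.mul_mem (K1.mul_mem (K1.inv_mem hq) hk) hq
    have m2 : s ∈ M := by
      have : s⁻¹ ∈ M := Subgroup.subset_closure fun k hk => by
        rw [inv_inv]
        exact hmem k (hK1K hk)
      simpa using M.inv_mem this
    have m3 : ∀ q ∈ K, q ∈ M := fun q hq => by
      have h1 := m1 _ (hmem q hq)
      have h2 := M.mul_mem (M.mul_mem (M.inv_mem m2) h1) m2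
      have h3 : s⁻¹ * (s * q * s⁻¹) * s = q := by group
      rwa [h3] at h2
    have m4 : ∀ q, K1 ≤ Subgroup.centralizer {q} → q ∈ M := fun q hq =>
      Subgroup.subset_closure fun k hk => by
        have h1 := Subgroup.mem_centralizer_singleton_iff.1 (hq hk)
        have h2 : q⁻¹ * k * q = k := by rw [mul_assoc, h1]; group
        rwa [h2]
    have mE : ∀ (i j : Fin 4) (c : B), i ≠ j → i ≠ 1 → j ≠ 1 → E i j c ∈ M :=
      fun i j c h1 h2 h3 => m3 _ (hEK i j c h1 h2 h3)
    have mr : ∀ (i j k : Fin 4) (c d : B), i ≠ j → j ≠ k → i ≠ k → E i j c ∈ M → E j k d ∈ M →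
        E i k (c * d) ∈ M := by
      intro i j k c d hij hjk hik h1 h2
      have h3 := h.rel i j k hij hjk hik c d
      have h4 : E i k (c * d) = (E i j c)⁻¹ * ((E j k d)⁻¹ * (E i j c * E j k d)) := by
        rw [h3]; group
      rw [h4]
      exact M.mul_mem (M.inv_mem h1) (M.mul_mem (M.inv_mem h2) (M.mul_mem h1 h2))
    have mc1 : ∀ (c : Fin 4) (r : B), c ≠ 0 → c ≠ 1 → E c 1 r ∈ M := by
      intro c r h0 h1
      have h2 := mr c 0 1 (r * b) (e * a) h0 h10.symm h1 (mE c 0 _ h0 h1 h10.symm)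
        (m4 _ (hw1 a))
      have h3 : r * b * (e * a) = r + t * (r * v) := by
        rw [mul_assoc, ← mul_assoc b, hbea, mul_add, mul_one, ← mul_assoc r t, ← tc r, mul_assoc]
      rwa [h3, E_addt h h1] at h2
    have m1c : ∀ (c : Fin 4) (r : B), c ≠ 0 → c ≠ 1 → E 1 c r ∈ M := by
      intro c r h0 h1
      have h2 := mr 1 0 c (b * e) (a * r) h10 h0.symm h1.symm (m4 _ (hw2 b))
        (mE 0 c _ h0.symm h10.symm h1)
      have h3 : b * e * (a * r) = r + t * (v * r) := by
        rw [← mul_assoc, hbea]; noncomm_ring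
      rwa [h3, E_addt h h1.symm] at h2
    have m01 : ∀ r, E 0 1 r ∈ M := by
      intro r
      have h2 := mr 0 2 1 r 1 (by decide) (by decide) (by decide)
        (mE 0 2 r (by decide) (by decide) (by decide)) (mc1 2 1 (by decide) (by decide))
      rwa [mul_one] at h2
    have m10 : ∀ r, E 1 0 r ∈ M := by
      intro r
      have h2 := mr 1 2 0 r 1 (by decide) (by decide) (by decide)
        (m1c 2 r (by decide) (by decide)) (mE 2 0 1 (by decide) (by decide) (by decide))
      rwa [mul_one] at h2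
    rw [eq_top_iff, ← h.gen, Subgroup.closure_le]
    rintro g ⟨i, j, c, hij, rfl⟩
    rcases eq_or_ne i 1 with rfl | hi
    · rcases eq_or_ne j 0 with rfl | hj
      · exact m10 c
      · exact m1c j c hj hij.symm
    · rcases eq_or_ne j 1 with rfl | hj
      · rcases eq_or_ne i 0 with rfl | hi0
        · exact m01 c
        · exact mc1 i c hi0 hi
      · exact mE i j c hij hi hj
  -- the centraliser
  have hc : ∀ k ∈ K, φ (E 0 1 e) * φ k = φ k * φ (E 0 1 e) := by
    intro k hk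
    have h1 := hclos P Γ φ K1 hP hT (hasT_conj K s hTK) htop (φ (E 0 1 e)) (fun z hz => by
      have h2 := Subgroup.mem_centralizer_singleton_iff.1 (hw1 1 hz)
      rw [mul_one] at h2
      rw [← map_mul, ← map_mul, h2]) s⁻¹ (s * k * s⁻¹) (hmem k hk)
    have h3 : s⁻¹ * (s * k * s⁻¹) * s⁻¹⁻¹ = k := by group
    rwa [h3] at h1
  have h21 : φ (E 2 1 (b * e)) = 1 := by
    have h1 := congrArg φ (h.rel 2 0 1 (by decide) (by decide) (by decide) b e)
    rw [map_mul, map_mul, map_mul, ← mul_assoc, hc _ (hEK 2 0 b (by decide) (by decide) (by decide))]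
      at h1
    exact mul_eq_left.1 h1.symm
  have h20 : φ (E 2 0 1) = 1 := by
    have h1 := congrArg φ (h.rel 2 1 0 (by decide) (by decide) (by decide) (b * e) a)
    have h2 : b * e * a = 1 + t * v := hbea
    rw [map_mul, map_mul, map_mul, h21, one_mul, one_mul, h2, E_addt h (by decide)] at h1
    exact mul_eq_left.1 h1.symm
  have h2a : ∀ r, φ (E 2 1 r) = 1 := by
    intro r
    have h1 := congrArg φ (h.rel 2 0 1 (by decide) (by decide) (by decide) 1 r)
    rw [map_mul, map_mul, map_mul, h20, one_mul, one_mul, one_mul] at h1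
    exact mul_eq_left.1 h1.symm
  have hall := spread h φ h2a
  intro g
  have hg : g ∈ φ.ker := by
    have h1 : Subgroup.closure {g | ∃ i j c, i ≠ j ∧ g = E i j c} ≤ φ.ker := by
      rw [Subgroup.closure_le]
      rintro g ⟨i, j, c, hij, rfl⟩
      exact hall i j hij c
    rw [h.gen] at h1
    exact h1 (Subgroup.mem_top g)
  exact hg

end Pool.Agent.Helper18.DN
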